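import Mathlib

/-!
# A `Q`-normal number that is not AP normal of any order `k` modulo `k` (MP_8144ad_nt, Q1)

We build a basic sequence `q` with `q n → ∞`, fully divergent of type I, and a real number `x`
which is `q`-normal of every order, while for every `k ≥ 2` and every residue `0 ≤ r < k` the
number `x` does not belong to `N^{AP}_k(q; k, r)`.

Construction.  Let `F m = (m+3)!`, `QQ m = F m * (m+3)`, let `m = mu n` be a slowly growing
function of the position `n` and `q n = QQ (mu n)`.  Enumerate all blocks as `blk 0, blk 1, …`.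
A copy of the block `blk b` (of length `k`) is planted at every position `i` with
`i ≡ F m * b  (mod (QQ m)^k)`, for `b < m = mu i`; all other digits are `q n - 2`.  The planted
copies have exactly the right density `q^{-k}`, do not overlap, and start at multiples of
`F m`, hence at multiples of `k`.
-/

open Filter Topology Finset

namespace Pool.Agent.Results.MP_8144ad_nt.APFailure

/-! ### The definitions used in the statement -/

/-- The block `B = (B 0, …, B (k-1))` occurs in the digit sequence `E` at position `i`. -/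
def Occurs {k : ℕ} (E : ℕ → ℕ) (B : Fin k → ℕ) (i : ℕ) : Prop :=
  ∀ j : Fin k, E (i + j) = B j

open Classical in
/-- The number of positions `1 ≤ i ≤ n`, `i ≡ r (mod m)`, at which `B` occurs
(for `0 ≤ r < m`; for `m = 1`, `r = 0` this is the number of all positions `1 ≤ i ≤ n` at which
`B` occurs). -/
noncomputable def occCount {k : ℕ} (E : ℕ → ℕ) (B : Fin k → ℕ) (n m r : ℕ) : ℕ :=
  ((Icc 1 n).filter fun i => i % m = r ∧ Occurs E B i).card

/-- The sum of `1 / (q_j q_{j+1} ⋯ q_{j+k-1})` over `1 ≤ j ≤ n`, `j ≡ r (mod m)`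
(for `0 ≤ r < m`; for `m = 1`, `r = 0` this is `Q_n^{(k)}`). -/
noncomputable def expCount (q : ℕ → ℕ) (k n m r : ℕ) : ℝ :=
  ∑ j ∈ (Icc 1 n).filter (fun j => j % m = r), 1 / ∏ l ∈ range k, (q (j + l) : ℝ)

/-- `E 1, E 2, …` are the digits of the `q`-Cantor series expansion of `x`:
`x = ⌊x⌋ + ∑_{n ≥ 1} E_n / (q_1 ⋯ q_n)` with `0 ≤ E_n ≤ q_n - 1` and `E_n ≠ q_n - 1` for
infinitely many `n`. (`E 0` and `q 0` play no role.) -/
def IsCantorExpansion (q E : ℕ → ℕ) (x : ℝ) : Prop :=
  (∀ n, 1 ≤ n → E n < q n) ∧ {n : ℕ | 1 ≤ n ∧ E n ≠ q n - 1}.Infinite ∧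
  Tendsto (fun N : ℕ => ∑ n ∈ Icc 1 N, (E n : ℝ) / ∏ i ∈ Icc 1 n, (q i : ℝ)) atTop
    (𝓝 (x - ⌊x⌋))

/-- `N^{AP}_k(q; m, r)`; for `m = 1`, `r = 0` it is the set of real numbers that are `q`-normal
of order `k`. -/
def apNormal (q : ℕ → ℕ) (k m r : ℕ) : Set ℝ :=
  {x | ∃ E : ℕ → ℕ, IsCantorExpansion q E x ∧ ∀ B : Fin k → ℕ,
    Tendsto (fun n => (occCount E B n m r : ℝ) / expCount q k n m r) atTop (𝓝 1)}

/-! ### Blocks -/

def blk (b : ℕ) : List ℕ := Denumerable.ofNat (List ℕ) b

lemma enc_blk (b : ℕ) : Encodable.encode (blk b) = b := Denumerable.encode_ofNat b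

lemma blk_enc (L : List ℕ) : blk (Encodable.encode L) = L := Denumerable.ofNat_encode L

lemma blk_len (b : ℕ) : (blk b).length ≤ b := by
  have := Encodable.length_le_encode (blk b)
  rwa [enc_blk] at this

lemma letter_le (L : List ℕ) : ∀ a ∈ L, a ≤ Encodable.encode L := by
  induction L with
  | nil => simp
  | cons x L ih =>
    intro a ha
    rw [Encodable.encode_list_cons]
    rcases List.mem_cons.1 ha with rfl | h
    · exact (Nat.left_le_pair _ _).trans (Nat.le_succ _)
    · exact (ih a h).trans ((Nat.right_le_pair _ _).trans (Nat.le_succ _))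

lemma getD_le (b t : ℕ) (ht : t < (blk b).length) : (blk b).getD t 0 ≤ b := by
  rw [List.getD_eq_getElem _ _ ht]
  have := letter_le (blk b) _ (List.getElem_mem ht)
  rwa [enc_blk] at this

/-! ### The periodic patterns -/

def F (m : ℕ) : ℕ := (m + 3).factorial

def QQ (m : ℕ) : ℕ := F m * (m + 3)

lemma F_ge (m : ℕ) : m + 3 ≤ F m := Nat.self_le_factorial _

lemma F_pos (m : ℕ) : 0 < F m := Nat.factorial_pos _

lemma lt_QQ {m b t : ℕ} (hb : b < m) (ht : t ≤ m + 1) : F m * b + t < QQ m := by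
  have h := F_ge m
  have h2 : F m * (b + 1) ≤ F m * (m + 3) := Nat.mul_le_mul_left _ (by omega)
  have h3 : F m * (b + 1) = F m * b + F m := by ring
  unfold QQ
  omega

lemma QQ_ge (m : ℕ) : m + 9 ≤ QQ m := by
  have h := F_ge m
  have : (m + 3) * (m + 3) ≤ F m * (m + 3) := Nat.mul_le_mul_right _ h
  unfold QQ
  nlinarith

lemma QQ_pos (m : ℕ) : 0 < QQ m := by have := QQ_ge m; omega

lemma F_dvd_QQ (m : ℕ) : F m ∣ QQ m := Dvd.intro _ rfl

lemma F_mono : Monotone F := fun a b h => Nat.factorial_le (by omega)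

lemma QQ_mono : Monotone QQ := fun a b h => Nat.mul_le_mul (F_mono h) (by omega)

def Pl (m b t n : ℕ) : Prop :=
  b < m ∧ t < (blk b).length ∧ n % QQ m ^ (blk b).length = F m * b + t

open Classical in
noncomputable def pat (m n : ℕ) : ℕ :=
  if Pl m (n % QQ m / F m) (n % F m) n then (blk (n % QQ m / F m)).getD (n % F m) 0 else QQ m - 2

lemma mod_down {m n a c z : ℕ} (h : n % QQ m ^ a = z) (hc : c ≤ a) (hz : z < QQ m ^ c) :
    n % QQ m ^ c = z := by
  rw [← Nat.mod_mod_of_dvd n (pow_dvd_pow (QQ m) hc), h, Nat.mod_eq_of_lt hz]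

lemma Pl.mod_QQ {m b t n : ℕ} (h : Pl m b t n) : n % QQ m = F m * b + t := by
  obtain ⟨hb, ht, he⟩ := h
  have h1 := blk_len b
  have := mod_down (c := 1) he (by omega) (by rw [pow_one]; exact lt_QQ hb (by omega))
  rwa [pow_one] at this

lemma Pl.t_lt {m b t n : ℕ} (h : Pl m b t n) : t < F m := by
  obtain ⟨hb, ht, he⟩ := h
  have h1 := blk_len b
  have h2 := F_ge m
  omega

lemma Pl.div_eq {m b t n : ℕ} (h : Pl m b t n) : n % QQ m / F m = b := by
  rw [h.mod_QQ, Nat.mul_add_div (F_pos m), Nat.div_eq_of_lt h.t_lt, add_zero]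

lemma Pl.mod_eq {m b t n : ℕ} (h : Pl m b t n) : n % F m = t := by
  rw [← Nat.mod_mod_of_dvd n (F_dvd_QQ m), h.mod_QQ, Nat.mul_add_mod, Nat.mod_eq_of_lt h.t_lt]

lemma pat_of_pl {m b t n : ℕ} (h : Pl m b t n) : pat m n = (blk b).getD t 0 := by
  unfold pat
  rw [h.div_eq, h.mod_eq, if_pos h]

lemma pl_of_pat {m n : ℕ} (h : pat m n ≠ QQ m - 2) : ∃ b t, Pl m b t n := by
  unfold pat at h
  by_contra hc
  push Not at hc
  rw [if_neg (hc _ _)] at h
  exact h rfl

lemma pat_le (m n : ℕ) : pat m n ≤ QQ m - 2 := by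
  by_cases h : ∃ b t, Pl m b t n
  · obtain ⟨b, t, h⟩ := h
    rw [pat_of_pl h]
    have h1 := getD_le b t h.2.1
    have h2 := h.1
    have := QQ_ge m
    omega
  · by_contra hc
    push Not at hc
    exact h (pl_of_pat (by omega))

lemma pl_succ {m b t b' t' n : ℕ} (h : Pl m b t n) (h' : Pl m b' t' (n + 1)) :
    b' = b ∧ t' = t + 1 := by
  have e1 := h.mod_QQ
  have e2 := h'.mod_QQ
  have hb := h.1
  have ht := h.2.1
  have hl := blk_len b
  have e3 : (n + 1) % QQ m = F m * b + (t + 1) := by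
    rw [Nat.add_mod, e1, Nat.mod_eq_of_lt (show 1 < QQ m by have := QQ_ge m; omega),
      Nat.mod_eq_of_lt (by have := lt_QQ hb (show t + 1 ≤ m + 1 by omega); omega)]
    ring
  rw [e2] at e3
  have hF := F_ge m
  have d1 : (F m * b' + t') / F m = b' := by
    rw [Nat.mul_add_div (F_pos m), Nat.div_eq_of_lt h'.t_lt, add_zero]
  have d2 : (F m * b + (t + 1)) / F m = b := by
    rw [Nat.mul_add_div (F_pos m), Nat.div_eq_of_lt (by omega), add_zero]
  rw [e3, d2] at d1
  subst d1
  omega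

/-- occurrences of a block in a pattern -/
lemma occ_pattern {L : List ℕ} (hL : 0 < L.length) {m i : ℕ} (hm : Encodable.encode L < m)
    (ho : ∀ j < L.length, pat m (i + j) = L.getD j 0) :
    i % QQ m ^ L.length = F m * Encodable.encode L ∨
      ∃ b < m, ∃ t < m, i % QQ m ^ (L.length + 1) = F m * b + t := by
  have hlet : ∀ j < L.length, ∃ b t, Pl m b t (i + j) := by
    intro j hj
    apply pl_of_pat
    rw [ho j hj, List.getD_eq_getElem _ _ hj]
    have := letter_le L _ (List.getElem_mem hj)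
    have := QQ_ge m
    omega
  obtain ⟨b, t, h0⟩ := hlet 0 hL
  rw [add_zero] at h0
  have hall : ∀ j < L.length, Pl m b (t + j) (i + j) := by
    intro j
    induction j with
    | zero => intro _; simpa using h0
    | succ j ih =>
      intro hj
      have h1 := ih (by omega)
      obtain ⟨b', t', h2⟩ := hlet (j + 1) hj
      obtain ⟨rfl, rfl⟩ := pl_succ h1 h2
      exact h2
  have hb := h0.1
  have hbl := blk_len b
  have hlast := (hall (L.length - 1) (by omega)).2.1
  by_cases hlen : (blk b).length = L.length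
  · left
    have ht : t = 0 := by omega
    subst ht
    have : blk b = L := by
      apply List.ext_getElem hlen
      intro j h1 h2
      have e1 := pat_of_pl (hall j h2)
      rw [ho j h2, List.getD_eq_getElem _ _ h2] at e1
      simp only [zero_add] at e1
      rw [List.getD_eq_getElem _ _ h1] at e1
      exact e1.symm
    have e := h0.2.2
    rw [hlen] at e
    rw [e, ← this, enc_blk, add_zero]
  · right
    refine ⟨b, hb, t, by omega, ?_⟩
    apply mod_down h0.2.2 (by omega)
    calc F m * b + t < QQ m := lt_QQ hb (by omega)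
      _ = QQ m ^ 1 := (pow_one _).symm
      _ ≤ QQ m ^ (L.length + 1) := Nat.pow_le_pow_right (QQ_pos m) (by omega)

lemma occ_planted {L : List ℕ} {m i : ℕ} (hm : Encodable.encode L < m)
    (hi : i % QQ m ^ L.length = F m * Encodable.encode L) (j : ℕ) (hj : j < L.length) :
    pat m (i + j) = L.getD j 0 := by
  have hl := Encodable.length_le_encode L
  have hP : Pl m (Encodable.encode L) j (i + j) := by
    refine ⟨hm, by rw [blk_enc]; exact hj, ?_⟩
    rw [blk_enc]
    have h1 : F m * Encodable.encode L + j < QQ m := lt_QQ hm (by omega)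
    have h2 : QQ m ≤ QQ m ^ L.length := by
      calc QQ m = QQ m ^ 1 := (pow_one _).symm
        _ ≤ QQ m ^ L.length := Nat.pow_le_pow_right (QQ_pos m) (by omega)
    rw [Nat.add_mod, hi, Nat.mod_eq_of_lt (show j < QQ m ^ L.length by omega),
      Nat.mod_eq_of_lt (by omega)]
  rw [pat_of_pl hP, blk_enc]

/-! ### The stage function -/

def G (m : ℕ) : ℕ := (m + 1) ^ 4 * QQ m ^ m

def mu (n : ℕ) : ℕ := Nat.findGreatest (fun m => G m ≤ n) n

lemma mu_mono : Monotone mu := by
  intro a b h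
  apply Nat.findGreatest_mono _ h
  intro m hm
  exact le_trans hm h

lemma G_mu {n : ℕ} (h : mu n ≠ 0) : G (mu n) ≤ n :=
  Nat.findGreatest_of_ne_zero (P := fun m => G m ≤ n) rfl h

lemma mu_tendsto : Tendsto mu atTop atTop := by
  rw [tendsto_atTop_atTop]
  intro b
  refine ⟨max b (G b), fun a ha => ?_⟩
  exact Nat.le_findGreatest (le_trans (le_max_left _ _) ha) (le_trans (le_max_right _ _) ha)


def qs (n : ℕ) : ℕ := QQ (mu n)

noncomputable def Es (n : ℕ) : ℕ := pat (mu n) n

lemma qs_mono : Monotone qs := QQ_mono.comp mu_mono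

lemma qs_ge (n : ℕ) : 9 ≤ qs n := by
  have := QQ_ge (mu n); unfold qs; omega

lemma qs_gt_mu (n : ℕ) : mu n ≤ qs n := by
  have := QQ_ge (mu n); unfold qs; omega

lemma qs_tendsto : Tendsto qs atTop atTop :=
  tendsto_atTop_mono qs_gt_mu mu_tendsto

noncomputable def W (k i : ℕ) : ℝ := 1 / (qs i : ℝ) ^ k

noncomputable def S (k n : ℕ) : ℝ := ∑ i ∈ range (n + 1), W k i

lemma qs_pos (i : ℕ) : (0 : ℝ) < qs i := by
  have := qs_ge i
  exact_mod_cast (by omega : 0 < qs i)

lemma one_le_qs (i : ℕ) : (1 : ℝ) ≤ qs i := by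
  have := qs_ge i
  exact_mod_cast (by omega : 1 ≤ qs i)

lemma W_pos (k i : ℕ) : 0 < W k i := by
  have := qs_pos i
  unfold W; positivity

lemma W_le_one (k i : ℕ) : W k i ≤ 1 := by
  unfold W
  rw [div_le_one (pow_pos (qs_pos i) k)]
  exact one_le_pow₀ (one_le_qs i)

lemma W_anti (k : ℕ) : Antitone (W k) := by
  intro a b h
  unfold W
  apply one_div_le_one_div_of_le (pow_pos (qs_pos a) k)
  apply pow_le_pow_left₀ (qs_pos a).le
  exact_mod_cast qs_mono h

lemma tele (f : ℕ → ℝ) (k n : ℕ) :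
    ∑ i ∈ range n, (f (i + k) - f i) = ∑ i ∈ range k, (f (n + i) - f i) := by
  induction n with
  | zero => simp
  | succ n ih =>
    rw [sum_range_succ, ih]
    have h1 : ∑ i ∈ range k, (f (n + 1 + i) - f i) = ∑ i ∈ range k, (f (n + i) - f i) +
        ∑ i ∈ range k, (f (n + (i + 1)) - f (n + i)) := by
      rw [← sum_add_distrib]
      apply sum_congr rfl
      intro x _
      rw [show n + 1 + x = n + (x + 1) by ring]
      ring
    rw [h1, sum_range_sub (fun i => f (n + i))]
    simp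

lemma stage (A : ℕ → ℕ → ℝ) (D : ℕ → ℝ) (hD : Monotone D)
    (hA : ∀ m n, |∑ i ∈ range n, A m i| ≤ D m) (n : ℕ) :
    |∑ i ∈ range n, A (mu i) i| ≤ (2 * mu n + 1) * D (mu n) := by
  have hD0 : ∀ m, 0 ≤ D m := fun m => (abs_nonneg _).trans (hA m 0)
  have key : ∀ n, |∑ i ∈ range n, A (mu i) i - ∑ i ∈ range n, A (mu n) i| ≤
      2 * mu n * D (mu n) := by
    intro n
    induction n with
    | zero =>
      rw [sum_range_zero, sum_range_zero, sub_zero, abs_zero]
      exact mul_nonneg (by positivity) (hD0 _)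
    | succ n ih =>
      rcases eq_or_ne (mu (n + 1)) (mu n) with h | h
      · rw [h, sum_range_succ, sum_range_succ]
        simpa using ih
      · have h1 : mu n + 1 ≤ mu (n + 1) :=
          Nat.succ_le_of_lt (lt_of_le_of_ne (mu_mono (Nat.le_succ n)) (Ne.symm h))
        have h1' : (mu n : ℝ) + 1 ≤ mu (n + 1) := by exact_mod_cast h1
        have e : ∑ i ∈ range (n + 1), A (mu i) i - ∑ i ∈ range (n + 1), A (mu (n + 1)) i =
            (∑ i ∈ range n, A (mu i) i - ∑ i ∈ range n, A (mu n) i) +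
            (∑ i ∈ range (n + 1), A (mu n) i - ∑ i ∈ range (n + 1), A (mu (n + 1)) i) := by
          rw [sum_range_succ (fun i => A (mu i) i), sum_range_succ (fun i => A (mu n) i)]
          ring
        rw [e]
        have a1 := hA (mu n) (n + 1)
        have a2 := hA (mu (n + 1)) (n + 1)
        have a3 : D (mu n) ≤ D (mu (n + 1)) := hD (mu_mono (Nat.le_succ n))
        calc _ ≤ |∑ i ∈ range n, A (mu i) i - ∑ i ∈ range n, A (mu n) i| +
            |∑ i ∈ range (n + 1), A (mu n) i - ∑ i ∈ range (n + 1), A (mu (n + 1)) i| :=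
              abs_add_le _ _
          _ ≤ 2 * mu n * D (mu n) + (|∑ i ∈ range (n + 1), A (mu n) i| +
              |∑ i ∈ range (n + 1), A (mu (n + 1)) i|) := add_le_add ih (abs_sub _ _)
          _ ≤ 2 * mu n * D (mu (n + 1)) + (D (mu (n + 1)) + D (mu (n + 1))) := by
              have : 2 * (mu n : ℝ) * D (mu n) ≤ 2 * mu n * D (mu (n + 1)) :=
                mul_le_mul_of_nonneg_left a3 (by positivity)
              linarith
          _ = 2 * (mu n + 1) * D (mu (n + 1)) := by ring
          _ ≤ 2 * mu (n + 1) * D (mu (n + 1)) := by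
              apply mul_le_mul_of_nonneg_right _ (hD0 _)
              linarith
  have h1 := key n
  have h2 := hA (mu n) n
  have h3 : |∑ i ∈ range n, A (mu i) i| ≤
      |∑ i ∈ range n, A (mu i) i - ∑ i ∈ range n, A (mu n) i| + |∑ i ∈ range n, A (mu n) i| := by
    have := abs_add_le (∑ i ∈ range n, A (mu i) i - ∑ i ∈ range n, A (mu n) i)
      (∑ i ∈ range n, A (mu n) i)
    rwa [sub_add_cancel] at this
  calc _ ≤ _ := h3
    _ ≤ 2 * mu n * D (mu n) + D (mu n) := add_le_add h1 h2
    _ = _ := by ring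

lemma mod_disc (M c n : ℕ) (hM : 0 < M) :
    |∑ i ∈ range n, ((if i % M = c % M then (1 : ℝ) else 0) - 1 / M)| ≤ 1 := by
  rw [sum_sub_distrib]
  have h1 : ∑ i ∈ range n, (if i % M = c % M then (1 : ℝ) else 0) =
      ((n / M : ℕ) : ℝ) + if c % M < n % M then 1 else 0 := by
    rw [← Finset.sum_filter]
    simp only [sum_const, nsmul_eq_mul, mul_one]
    have h2 := Nat.count_modEq_card n hM c
    rw [Nat.count_eq_card_filter_range] at h2
    have h3 : (filter (fun i => i % M = c % M) (range n)) = filter (fun i => i ≡ c [MOD M]) (range n) := rfl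
    rw [h3, h2]
    push_cast
    rfl
  rw [h1]
  simp only [sum_const, card_range, nsmul_eq_mul]
  have hM' : (0 : ℝ) < M := by exact_mod_cast hM
  have h4 : (n : ℝ) * (1 / M) = (n / M : ℕ) + ((n % M : ℕ) : ℝ) / M := by
    have : (n : ℝ) = M * (n / M : ℕ) + (n % M : ℕ) := by exact_mod_cast (Nat.div_add_mod n M).symm
    conv_lhs => rw [this]
    field_simp
  have h5 : ((n % M : ℕ) : ℝ) / M ≤ 1 := by
    rw [div_le_one hM']
    exact_mod_cast (Nat.mod_lt n hM).le
  have h6 : 0 ≤ ((n % M : ℕ) : ℝ) / M := by positivity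
  rw [h4, abs_le]
  split_ifs <;> constructor <;> linarith

lemma abel (a w : ℕ → ℝ) (D : ℝ) (hD : ∀ n, |∑ i ∈ range n, a i| ≤ D) (hw : Antitone w)
    (hw0 : ∀ n, 0 ≤ w n) (n : ℕ) : |∑ i ∈ range n, a i * w i| ≤ D * w 0 := by
  have key : |∑ i ∈ range n, a i * w i - (∑ i ∈ range n, a i) * w n| ≤ D * (w 0 - w n) := by
    induction n with
    | zero => simp
    | succ n ih =>
      have e : ∑ i ∈ range (n + 1), a i * w i - (∑ i ∈ range (n + 1), a i) * w (n + 1) =
          (∑ i ∈ range n, a i * w i - (∑ i ∈ range n, a i) * w n) +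
          (∑ i ∈ range (n + 1), a i) * (w n - w (n + 1)) := by
        rw [sum_range_succ, sum_range_succ]
        ring
      rw [e]
      have h1 : 0 ≤ w n - w (n + 1) := sub_nonneg.2 (hw (Nat.le_succ n))
      calc _ ≤ |∑ i ∈ range n, a i * w i - (∑ i ∈ range n, a i) * w n| +
          |(∑ i ∈ range (n + 1), a i) * (w n - w (n + 1))| := abs_add_le _ _
        _ ≤ D * (w 0 - w n) + D * (w n - w (n + 1)) := by
            apply add_le_add ih
            rw [abs_mul, abs_of_nonneg h1]
            exact mul_le_mul_of_nonneg_right (hD _) h1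
        _ = _ := by ring
  have h2 : |(∑ i ∈ range n, a i) * w n| ≤ D * w n := by
    rw [abs_mul, abs_of_nonneg (hw0 n)]
    exact mul_le_mul_of_nonneg_right (hD _) (hw0 n)
  have h3 := abs_add_le (∑ i ∈ range n, a i * w i - (∑ i ∈ range n, a i) * w n)
    ((∑ i ∈ range n, a i) * w n)
  rw [sub_add_cancel] at h3
  linarith

lemma S_pos (k n : ℕ) : 0 < S k n := by
  unfold S
  exact sum_pos (fun i _ => W_pos k i) ⟨0, by simp⟩

lemma S_lower {k n : ℕ} (hk : k ≤ mu n) (h0 : mu n ≠ 0) : ((mu n : ℝ) + 1) ^ 4 ≤ S k n := by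
  have h1 : ∀ i ∈ range (n + 1), W k n ≤ W k i := fun i hi =>
    W_anti k (by have := mem_range.1 hi; omega)
  have h2 := Finset.card_nsmul_le_sum _ _ _ h1
  rw [card_range, nsmul_eq_mul] at h2
  refine le_trans ?_ h2
  have h3 : ((mu n : ℝ) + 1) ^ 4 * (qs n : ℝ) ^ mu n ≤ n := by
    have := G_mu h0
    unfold G at this
    exact_mod_cast this
  have h4 : (qs n : ℝ) ^ k ≤ (qs n : ℝ) ^ mu n := pow_le_pow_right₀ (one_le_qs n) hk
  have hq := pow_pos (qs_pos n) k
  unfold W
  rw [mul_one_div, le_div_iff₀ hq]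
  push_cast
  calc ((mu n : ℝ) + 1) ^ 4 * (qs n : ℝ) ^ k ≤ ((mu n : ℝ) + 1) ^ 4 * (qs n : ℝ) ^ mu n :=
        mul_le_mul_of_nonneg_left h4 (by positivity)
    _ ≤ n + 1 := by linarith

lemma S_mono (k : ℕ) : Monotone (S k) := by
  intro a b h
  unfold S
  exact sum_le_sum_of_subset_of_nonneg (range_mono (by omega)) (fun i _ _ => (W_pos k i).le)

lemma S_tendsto (k : ℕ) : Tendsto (S k) atTop atTop := by
  have h1 : Tendsto (fun n => ((mu n : ℝ) + 1) ^ 4) atTop atTop := by
    apply (tendsto_pow_atTop (by norm_num)).comp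
    exact tendsto_atTop_add_const_right _ _ (tendsto_natCast_atTop_atTop.comp mu_tendsto)
  apply tendsto_atTop_mono' _ _ h1
  filter_upwards [mu_tendsto.eventually_ge_atTop (k + 1)] with n hn
  exact S_lower (by omega) (by omega)

lemma S_shift (k n a : ℕ) : S k (n + a) ≤ S k n + a := by
  unfold S
  rw [show n + a + 1 = (n + 1) + a by ring, sum_range_add]
  have : ∑ x ∈ range a, W k (n + 1 + x) ≤ ∑ x ∈ range a, (1 : ℝ) :=
    sum_le_sum (fun i _ => W_le_one _ _)
  simp at this
  linarith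

/-- the basic error term -/
lemma err_small (k a : ℕ) :
    Tendsto (fun n => ((mu (n + a) : ℝ) + 1) ^ 3 / S k n) atTop (𝓝 0) := by
  have h1 : Tendsto (fun n => 2 / ((mu (n + a) : ℝ) + 1)) atTop (𝓝 0) := by
    apply Tendsto.div_atTop tendsto_const_nhds
    apply tendsto_atTop_add_const_right
    exact tendsto_natCast_atTop_atTop.comp (mu_tendsto.comp (tendsto_add_atTop_nat a))
  have hm : Tendsto (fun n => mu (n + a)) atTop atTop := mu_tendsto.comp (tendsto_add_atTop_nat a)
  apply squeeze_zero' (Eventually.of_forall fun n => by have := S_pos k n; positivity) _ h1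
  filter_upwards [hm.eventually_ge_atTop (k + 1), (S_tendsto k).eventually_ge_atTop (a : ℝ)]
    with n hn hS
  have h2 := S_lower (n := n + a) (k := k) (by omega) (by omega)
  have h3 := S_shift k n a
  have h4 : ((mu (n + a) : ℝ) + 1) ^ 4 ≤ 2 * S k n := by linarith
  rw [div_le_div_iff₀ (S_pos k n) (by positivity)]
  calc ((mu (n + a) : ℝ) + 1) ^ 3 * ((mu (n + a) : ℝ) + 1) = ((mu (n + a) : ℝ) + 1) ^ 4 := by ring
    _ ≤ _ := h4


lemma sum_Icc_eq (f : ℕ → ℝ) (n : ℕ) :
    ∑ i ∈ Icc 1 n, f i = ∑ i ∈ range (n + 1), f i - f 0 := by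
  induction n with
  | zero => simp
  | succ n ih =>
    rw [sum_Icc_succ_top (by omega), ih, sum_range_succ (n := n + 1)]
    ring

noncomputable def pI (d k i : ℕ) : ℝ :=
  if i % qs i ^ k = (F (mu i) * d) % qs i ^ k then 1 else 0

noncomputable def xI (k i : ℕ) : ℝ :=
  ∑ b ∈ range (mu i), ∑ t ∈ range (mu i),
    if i % qs i ^ (k + 1) = (F (mu i) * b + t) % qs i ^ (k + 1) then 1 else 0

noncomputable def bI (d k i : ℕ) : ℝ :=
  (if mu (i + k) = mu i then 0 else 1) + (if mu i ≤ d then 1 else 0)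

lemma p_disc (d k n : ℕ) : |∑ i ∈ range n, (pI d k i - W k i)| ≤ 2 * mu n + 1 := by
  have h := stage (fun m i => (if i % QQ m ^ k = (F m * d) % QQ m ^ k then (1 : ℝ) else 0) -
    1 / ((QQ m ^ k : ℕ) : ℝ)) (fun _ => 1) monotone_const
    (fun m n => mod_disc _ _ _ (pow_pos (QQ_pos m) k)) n
  rw [mul_one] at h
  unfold pI W qs
  push_cast at h
  exact h

lemma x_disc (k n : ℕ) : ∑ i ∈ range n, xI k i ≤
    ∑ i ∈ range n, (mu i : ℝ) ^ 2 / (qs i : ℝ) ^ (k + 1) + (2 * mu n + 1) * (mu n : ℝ) ^ 2 := by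
  have h := stage (fun m i => ∑ b ∈ range m, ∑ t ∈ range m,
    ((if i % QQ m ^ (k + 1) = (F m * b + t) % QQ m ^ (k + 1) then (1 : ℝ) else 0) -
    1 / ((QQ m ^ (k + 1) : ℕ) : ℝ))) (fun m => (m : ℝ) ^ 2)
    (fun a b hab => by
      have : (a : ℝ) ≤ b := by exact_mod_cast hab
      exact pow_le_pow_left₀ (by positivity) this 2)
    (fun m n => by
      rw [sum_comm]
      have : ∀ b ∈ range m, |∑ i ∈ range n, ∑ t ∈ range m,
        ((if i % QQ m ^ (k + 1) = (F m * b + t) % QQ m ^ (k + 1) then (1 : ℝ) else 0) -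
        1 / ((QQ m ^ (k + 1) : ℕ) : ℝ))| ≤ m := by
        intro b _
        rw [sum_comm]
        refine (abs_sum_le_sum_abs _ _).trans ?_
        refine (sum_le_sum (fun t _ => mod_disc _ _ _ (pow_pos (QQ_pos m) (k + 1)))).trans ?_
        simp
      refine (abs_sum_le_sum_abs _ _).trans ((sum_le_sum this).trans ?_)
      simp [pow_two]) n
  have h2 : ∀ i, (∑ b ∈ range (mu i), ∑ t ∈ range (mu i),
    ((if i % QQ (mu i) ^ (k + 1) = (F (mu i) * b + t) % QQ (mu i) ^ (k + 1) then (1 : ℝ) else 0) -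
    1 / ((QQ (mu i) ^ (k + 1) : ℕ) : ℝ))) = xI k i - (mu i : ℝ) ^ 2 / (qs i : ℝ) ^ (k + 1) := by
    intro i
    unfold xI qs
    simp only [sum_sub_distrib, sum_const, card_range, nsmul_eq_mul]
    push_cast
    ring
  simp only [h2] at h
  rw [sum_sub_distrib] at h
  have := (abs_le.1 h).2
  linarith

lemma QQ_big (m : ℕ) : m ^ 2 * (m + 2) ≤ QQ m := by
  unfold QQ F
  rw [Nat.factorial_succ, Nat.factorial_succ]
  have h := Nat.factorial_pos (m + 1)
  calc m ^ 2 * (m + 2) ≤ ((m + 2 + 1) * ((m + 1 + 1) * 1)) * (m + 3) := by nlinarith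
    _ ≤ _ := by gcongr; exact h

lemma eps_small : Tendsto (fun i => (mu i : ℝ) ^ 2 / (qs i : ℝ)) atTop (𝓝 0) := by
  have h1 : Tendsto (fun i => 1 / ((mu i : ℝ) + 1)) atTop (𝓝 0) :=
    tendsto_one_div_add_atTop_nhds_zero_nat.comp mu_tendsto
  refine squeeze_zero (fun i => by have := qs_pos i; positivity) (fun i => ?_) h1
  rw [div_le_div_iff₀ (qs_pos i) (by positivity)]
  have h2 : ((mu i : ℝ)) ^ 2 * (mu i + 2) ≤ qs i := by exact_mod_cast QQ_big (mu i)
  nlinarith [sq_nonneg (mu i : ℝ)]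

lemma cesaro (k : ℕ) : Tendsto (fun n => (∑ i ∈ range (n + 1),
    (mu i : ℝ) ^ 2 / (qs i : ℝ) ^ (k + 1)) / S k n) atTop (𝓝 0) := by
  have h1 : (fun i => (mu i : ℝ) ^ 2 / (qs i : ℝ) ^ (k + 1)) =o[atTop] W k := by
    rw [Asymptotics.isLittleO_iff_tendsto (fun i hi => absurd hi (W_pos k i).ne')]
    refine eps_small.congr (fun i => ?_)
    have := (qs_pos i).ne'
    unfold W
    field_simp
    ring
  have h2 : Tendsto (fun n => ∑ i ∈ range n, W k i) atTop atTop :=
    (tendsto_add_atTop_iff_nat 1).1 (S_tendsto k)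
  have h3 := Asymptotics.IsLittleO.sum_range h1 (fun i => (W_pos k i).le) h2
  have h4 := (h3.comp_tendsto (tendsto_add_atTop_nat 1)).tendsto_div_nhds_zero
  exact h4

lemma b_sum (d k : ℕ) : ∃ C : ℝ, ∀ n, ∑ i ∈ range (n + 1), bI d k i ≤
    k * (mu (n + 1 + k) : ℝ) + C := by
  obtain ⟨N0, hN0⟩ := (tendsto_atTop_atTop.1 mu_tendsto) (d + 1)
  refine ⟨N0, fun n => ?_⟩
  unfold bI
  rw [sum_add_distrib]
  apply add_le_add
  · have h1 : ∀ i ∈ range (n + 1), (if mu (i + k) = mu i then (0 : ℝ) else 1) ≤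
        (mu (i + k) : ℝ) - mu i := by
      intro i _
      split_ifs with h
      · rw [h, sub_self]
      · have h2 : mu i + 1 ≤ mu (i + k) :=
          Nat.succ_le_of_lt (lt_of_le_of_ne (mu_mono (Nat.le_add_right i k)) (Ne.symm h))
        have : (mu i : ℝ) + 1 ≤ mu (i + k) := by exact_mod_cast h2
        linarith
    refine (sum_le_sum h1).trans ?_
    rw [tele (fun i => (mu i : ℝ))]
    calc _ ≤ ∑ i ∈ range k, (mu (n + 1 + k) : ℝ) := by
          apply sum_le_sum
          intro i hi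
          have h3 : (mu (n + 1 + i) : ℝ) ≤ mu (n + 1 + k) := by
            exact_mod_cast mu_mono (by have := mem_range.1 hi; omega)
          have h4 : (0 : ℝ) ≤ mu i := by positivity
          linarith
      _ = _ := by simp
  · rw [← sum_filter]
    simp only [sum_const, nsmul_eq_mul, mul_one]
    have : (filter (fun i => mu i ≤ d) (range (n + 1))).card ≤ N0 := by
      rw [← card_range N0]
      apply card_le_card
      intro i hi
      rw [mem_filter] at hi
      rw [mem_range]
      by_contra hc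
      push Not at hc
      have := hN0 i hc
      omega
    exact_mod_cast this

lemma QQ_le_pow {k m : ℕ} (hk : 1 ≤ k) : QQ m ≤ QQ m ^ k := by
  calc QQ m = QQ m ^ 1 := (pow_one _).symm
    _ ≤ QQ m ^ k := Nat.pow_le_pow_right (QQ_pos m) hk

open Classical in
lemma pointwise {k : ℕ} (hk : 1 ≤ k) (B : Fin k → ℕ) (i : ℕ) :
    pI (Encodable.encode (List.ofFn B)) k i - bI (Encodable.encode (List.ofFn B)) k i ≤
      (if i % k = 0 ∧ Occurs Es B i then (1 : ℝ) else 0) ∧
    (if Occurs Es B i then (1 : ℝ) else 0) ≤ pI (Encodable.encode (List.ofFn B)) k i + xI k i +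
      bI (Encodable.encode (List.ofFn B)) k i := by
  set L := List.ofFn B with hL
  set d := Encodable.encode L with hd
  have hlen : L.length = k := by rw [hL, List.length_ofFn]
  have hlend := Encodable.length_le_encode L
  rw [← hd, hlen] at hlend
  have hp0 : 0 ≤ pI d k i := by unfold pI; split_ifs <;> norm_num
  have hp1 : pI d k i ≤ 1 := by unfold pI; split_ifs <;> norm_num
  have hx0 : 0 ≤ xI k i := by
    unfold xI
    apply sum_nonneg; intro b _; apply sum_nonneg; intro t _
    split_ifs <;> norm_num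
  have hb0 : 0 ≤ bI d k i := by unfold bI; split_ifs <;> norm_num
  by_cases hbad : mu (i + k) = mu i ∧ d < mu i
  · obtain ⟨h1, h2⟩ := hbad
    have hEs : ∀ j < k, Es (i + j) = pat (mu i) (i + j) := by
      intro j hj
      have e1 : mu (i + j) = mu i :=
        le_antisymm (h1 ▸ mu_mono (by omega)) (mu_mono (by omega))
      rw [Es, e1]
    have hocc : Occurs Es B i ↔ ∀ j < L.length, pat (mu i) (i + j) = L.getD j 0 := by
      rw [hlen]
      constructor
      · intro h j hj
        rw [← hEs j hj, List.getD_eq_getElem _ _ (by rw [hlen]; exact hj)]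
        have := h ⟨j, hj⟩
        simp only at this
        rw [this]
        simp [hL]
      · intro h j
        rw [hEs j j.2, h j j.2, List.getD_eq_getElem _ _ (by rw [hlen]; exact j.2)]
        simp [hL]
    have hbI : bI d k i = 0 := by
      unfold bI
      rw [if_pos h1, if_neg (by omega), add_zero]
    have hlt : F (mu i) * d < QQ (mu i) ^ k :=
      lt_of_lt_of_le (by have := lt_QQ h2 (Nat.zero_le (mu i + 1)); omega) (QQ_le_pow hk)
    rw [hbI]
    constructor
    · rw [sub_zero]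
      by_cases hp : i % qs i ^ k = (F (mu i) * d) % qs i ^ k
      · unfold qs at hp
        rw [Nat.mod_eq_of_lt hlt] at hp
        have ho : Occurs Es B i := by
          rw [hocc]
          intro j hj
          exact occ_planted h2 (by rw [hlen]; exact hp) j hj
        have hmod : i % k = 0 := by
          have d1 : k ∣ F (mu i) := Nat.dvd_factorial (by omega) (by omega)
          have d2 : F (mu i) ∣ QQ (mu i) ^ k :=
            (F_dvd_QQ _).trans (dvd_pow_self _ (by omega))
          have d3 : k ∣ i % QQ (mu i) ^ k := by rw [hp]; exact d1.mul_right _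
          exact Nat.mod_eq_zero_of_dvd ((Nat.dvd_mod_iff (d1.trans d2)).1 d3)
        rw [if_pos ⟨hmod, ho⟩]
        exact hp1
      · have : pI d k i = 0 := by unfold pI; rw [if_neg hp]
        rw [this]
        split_ifs <;> norm_num
    · by_cases ho : Occurs Es B i
      · rw [if_pos ho, add_zero]
        rw [hocc] at ho
        rcases occ_pattern (by omega) h2 ho with h3 | ⟨b, hb, t, ht, h3⟩
        · have : pI d k i = 1 := by
            unfold pI
            rw [hlen] at h3
            unfold qs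
            rw [if_pos (by rw [h3, ← hd, Nat.mod_eq_of_lt hlt])]
          linarith
        · have : 1 ≤ xI k i := by
            unfold xI
            have hlt2 : F (mu i) * b + t < QQ (mu i) ^ (k + 1) :=
              lt_of_lt_of_le (lt_QQ hb (by omega)) (QQ_le_pow (by omega))
            have e1 : (if i % qs i ^ (k + 1) = (F (mu i) * b + t) % qs i ^ (k + 1)
                then (1 : ℝ) else 0) = 1 := by
              rw [hlen] at h3
              unfold qs
              rw [if_pos (by rw [h3, Nat.mod_eq_of_lt hlt2])]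
            calc (1 : ℝ) = _ := e1.symm
              _ ≤ ∑ t ∈ range (mu i),
                  if i % qs i ^ (k + 1) = (F (mu i) * b + t) % qs i ^ (k + 1) then 1 else 0 :=
                single_le_sum (f := fun t =>
                  if i % qs i ^ (k + 1) = (F (mu i) * b + t) % qs i ^ (k + 1) then (1 : ℝ) else 0)
                  (fun t _ => by split_ifs <;> norm_num) (mem_range.2 ht)
              _ ≤ _ := single_le_sum (f := fun b => ∑ t ∈ range (mu i),
                  if i % qs i ^ (k + 1) = (F (mu i) * b + t) % qs i ^ (k + 1) then (1 : ℝ) else 0)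
                  (fun b _ => sum_nonneg (fun t _ => by split_ifs <;> norm_num)) (mem_range.2 hb)
          linarith
      · rw [if_neg ho]
        linarith
  · have hb1 : 1 ≤ bI d k i := by
      unfold bI
      by_cases h1 : mu (i + k) = mu i
      · have h2 : mu i ≤ d := by
          by_contra hc
          exact hbad ⟨h1, by omega⟩
        rw [if_pos h1, if_pos h2]; norm_num
      · rw [if_neg h1]
        split_ifs <;> norm_num
    constructor
    · split_ifs <;> linarith
    · split_ifs <;> linarith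


lemma main_est {k : ℕ} (hk : 1 ≤ k) (B : Fin k → ℕ) : ∃ Err : ℕ → ℝ,
    Tendsto (fun n => Err n / S k n) atTop (𝓝 0) ∧
    ∀ n, |(occCount Es B n k 0 : ℝ) - S k n| ≤ Err n ∧
      |(occCount Es B n 1 0 : ℝ) - S k n| ≤ Err n := by
  classical
  set d := Encodable.encode (List.ofFn B) with hd
  obtain ⟨C, hC⟩ := b_sum d k
  refine ⟨fun n => (k + 4) * ((mu (n + (1 + k)) : ℝ) + 1) ^ 3 +
    ∑ i ∈ range (n + 1), (mu i : ℝ) ^ 2 / (qs i : ℝ) ^ (k + 1) + (|C| + 1), ?_, ?_⟩
  · have h1 := (err_small k (1 + k)).const_mul ((k : ℝ) + 4)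
    have h2 := cesaro k
    have h3 : Tendsto (fun n => (|C| + 1) / S k n) atTop (𝓝 0) :=
      Tendsto.div_atTop tendsto_const_nhds (S_tendsto k)
    have h4 := (h1.add h2).add h3
    simp only [mul_zero, add_zero] at h4
    refine h4.congr (fun n => ?_)
    ring
  · intro n
    have hocc1 : (occCount Es B n 1 0 : ℝ) = ∑ i ∈ range (n + 1),
        (if Occurs Es B i then (1 : ℝ) else 0) - (if Occurs Es B 0 then (1 : ℝ) else 0) := by
      rw [← sum_Icc_eq (fun i => if Occurs Es B i then (1 : ℝ) else 0)]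
      unfold occCount
      rw [card_filter]
      push_cast
      apply sum_congr rfl
      intro i _
      simp [Nat.mod_one]
    have hocck : (occCount Es B n k 0 : ℝ) = ∑ i ∈ range (n + 1),
        (if i % k = 0 ∧ Occurs Es B i then (1 : ℝ) else 0) -
        (if 0 % k = 0 ∧ Occurs Es B 0 then (1 : ℝ) else 0) := by
      rw [← sum_Icc_eq (fun i => if i % k = 0 ∧ Occurs Es B i then (1 : ℝ) else 0)]
      unfold occCount
      rw [card_filter]
      push_cast
      rfl
    have hle : (occCount Es B n k 0 : ℝ) ≤ occCount Es B n 1 0 := by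
      unfold occCount
      have : ((Icc 1 n).filter fun i => i % k = 0 ∧ Occurs Es B i).card ≤
          ((Icc 1 n).filter fun i => i % 1 = 0 ∧ Occurs Es B i).card := by
        apply card_le_card
        intro i hi
        rw [mem_filter] at hi ⊢
        exact ⟨hi.1, Nat.mod_one i, hi.2.2⟩
      exact_mod_cast this
    have hP := abs_le.1 (p_disc d k (n + 1))
    rw [sum_sub_distrib] at hP
    have hX := x_disc k (n + 1)
    have hB := hC n
    have hlow := sum_le_sum (fun i (_ : i ∈ range (n + 1)) => (pointwise hk B i).1)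
    have hup := sum_le_sum (fun i (_ : i ∈ range (n + 1)) => (pointwise hk B i).2)
    rw [sum_sub_distrib, ← hd] at hlow
    rw [sum_add_distrib, sum_add_distrib, ← hd] at hup
    have hS : S k n = ∑ i ∈ range (n + 1), W k i := rfl
    have e1 : (0 : ℝ) ≤ (if Occurs Es B 0 then (1 : ℝ) else 0) := by split_ifs <;> norm_num
    have e2 : (if 0 % k = 0 ∧ Occurs Es B 0 then (1 : ℝ) else 0) ≤ 1 := by
      split_ifs <;> norm_num
    have hx : (mu (n + 1) : ℝ) ≤ mu (n + (1 + k)) := by
      exact_mod_cast mu_mono (by omega)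
    have hx0 : (0 : ℝ) ≤ mu (n + 1) := by positivity
    rw [show n + 1 + k = n + (1 + k) by ring] at hB
    set x : ℝ := (mu (n + 1) : ℝ)
    set y : ℝ := (mu (n + (1 + k)) : ℝ)
    have hy0 : 0 ≤ y := le_trans hx0 hx
    have c1 : 2 * x + 1 ≤ 2 * (y + 1) ^ 3 := by
      have : (y + 1) ≤ (y + 1) ^ 3 := by nlinarith [mul_nonneg hy0 hy0]
      linarith
    have c2 : (2 * x + 1) * x ^ 2 ≤ 2 * (y + 1) ^ 3 := by
      have h1 : (x + 1) ^ 3 ≤ (y + 1) ^ 3 := pow_le_pow_left₀ (by linarith) (by linarith) 3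
      nlinarith [mul_nonneg hx0 hx0]
    have c3 : (k : ℝ) * y ≤ k * (y + 1) ^ 3 := by
      apply mul_le_mul_of_nonneg_left _ (by positivity)
      nlinarith [mul_nonneg hy0 hy0]
    have c4 : C ≤ |C| := le_abs_self C
    have c5 : 0 ≤ ∑ i ∈ range (n + 1), (mu i : ℝ) ^ 2 / (qs i : ℝ) ^ (k + 1) :=
      sum_nonneg (fun i _ => by have := qs_pos i; positivity)
    have lower : S k n - ((k + 4) * (y + 1) ^ 3 +
        ∑ i ∈ range (n + 1), (mu i : ℝ) ^ 2 / (qs i : ℝ) ^ (k + 1) + (|C| + 1)) ≤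
        occCount Es B n k 0 := by
      rw [hocck, hS]
      have : 0 ≤ (y + 1) ^ 3 := by positivity
      linarith
    have upper : (occCount Es B n 1 0 : ℝ) ≤ S k n + ((k + 4) * (y + 1) ^ 3 +
        ∑ i ∈ range (n + 1), (mu i : ℝ) ^ 2 / (qs i : ℝ) ^ (k + 1) + (|C| + 1)) := by
      rw [hocc1, hS]
      linarith
    constructor <;> rw [abs_le] <;> constructor <;> linarith

noncomputable def wt (k j : ℕ) : ℝ := 1 / ∏ l ∈ range k, (qs (j + l) : ℝ)

lemma wt_le (k j : ℕ) : wt k j ≤ W k j := by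
  unfold wt W
  apply one_div_le_one_div_of_le (pow_pos (qs_pos j) k)
  calc (qs j : ℝ) ^ k = ∏ l ∈ range k, (qs j : ℝ) := by simp
    _ ≤ _ := prod_le_prod (fun l _ => (qs_pos j).le) (fun l _ => by
      exact_mod_cast qs_mono (Nat.le_add_right j l))

lemma le_wt (k j : ℕ) : W k (j + k) ≤ wt k j := by
  unfold wt W
  apply one_div_le_one_div_of_le (prod_pos fun l _ => qs_pos _)
  calc _ ≤ ∏ l ∈ range k, (qs (j + k) : ℝ) := prod_le_prod (fun l _ => (qs_pos _).le)
        (fun l hl => by exact_mod_cast qs_mono (by have := mem_range.1 hl; omega))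
    _ = _ := by simp

lemma wt_nonneg (k j : ℕ) : 0 ≤ wt k j := (W_pos k (j + k)).le.trans (le_wt k j)

lemma wt_anti (k : ℕ) : Antitone (wt k) := by
  intro a b h
  unfold wt
  apply one_div_le_one_div_of_le (prod_pos fun l _ => qs_pos _)
  exact prod_le_prod (fun l _ => (qs_pos _).le) (fun l _ => by
    exact_mod_cast qs_mono (by omega))

lemma wt_sum (k n : ℕ) : |∑ j ∈ range n, wt k j - ∑ j ∈ range n, W k j| ≤ k := by
  have h1 : ∑ j ∈ range n, wt k j ≤ ∑ j ∈ range n, W k j := sum_le_sum fun j _ => wt_le k j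
  have h2 : ∑ j ∈ range n, (W k (j + k) - W k j) ≤ ∑ j ∈ range n, (wt k j - W k j) :=
    sum_le_sum fun j _ => by have := le_wt k j; linarith
  rw [tele, sum_sub_distrib, sum_sub_distrib] at h2
  have h3 : ∑ i ∈ range k, W k i ≤ ∑ i ∈ range k, (1 : ℝ) := sum_le_sum fun i _ => W_le_one k i
  have h4 : 0 ≤ ∑ i ∈ range k, W k (n + i) := sum_nonneg fun i _ => (W_pos k _).le
  simp at h3
  rw [abs_le]
  constructor <;> linarith

lemma exp_est (k M r : ℕ) (hM : 0 < M) (hr : r < M) :
    ∀ n, |(M : ℝ) * expCount qs k n M r - S k n| ≤ 2 * M + k := by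
  intro n
  have hM' : (0 : ℝ) < M := by exact_mod_cast hM
  have h1 : expCount qs k n M r = ∑ j ∈ range (n + 1), (if j % M = r then wt k j else 0) -
      (if 0 % M = r then wt k 0 else 0) := by
    rw [← sum_Icc_eq (fun j => if j % M = r then wt k j else 0)]
    unfold expCount
    rw [sum_filter]
    rfl
  have h2 := abel (fun i => (if i % M = r % M then (1 : ℝ) else 0) - 1 / M) (wt k) 1
    (fun n => mod_disc M r n hM) (wt_anti k) (wt_nonneg k) (n + 1)
  have h3 := wt_sum k (n + 1)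
  have hw0 : wt k 0 ≤ 1 := (wt_le k 0).trans (W_le_one k 0)
  have hw0' := wt_nonneg k 0
  have h4 : ∑ i ∈ range (n + 1), ((if i % M = r % M then (1 : ℝ) else 0) - 1 / M) * wt k i =
      ∑ j ∈ range (n + 1), (if j % M = r then wt k j else 0) -
        (1 / M) * ∑ j ∈ range (n + 1), wt k j := by
    rw [mul_sum, ← sum_sub_distrib]
    apply sum_congr rfl
    intro j _
    rw [Nat.mod_eq_of_lt hr]
    split_ifs <;> ring
  rw [h4] at h2
  have h5 : 0 ≤ (if 0 % M = r then wt k 0 else 0) := by split_ifs <;> linarith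
  have h6 : (if 0 % M = r then wt k 0 else 0) ≤ 1 := by split_ifs <;> linarith
  set A := ∑ j ∈ range (n + 1), (if j % M = r then wt k j else 0)
  set T := ∑ j ∈ range (n + 1), wt k j
  have e : (M : ℝ) * expCount qs k n M r - S k n = M * (A - 1 / M * T) -
      M * (if 0 % M = r then wt k 0 else 0) + (T - ∑ j ∈ range (n + 1), W k j) := by
    rw [h1]
    unfold S
    field_simp
    ring
  rw [e]
  have g1 : |(M : ℝ) * (A - 1 / M * T)| ≤ M := by
    rw [abs_mul, abs_of_pos hM']
    calc (M : ℝ) * |A - 1 / M * T| ≤ M * (1 * wt k 0) := mul_le_mul_of_nonneg_left h2 hM'.le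
      _ ≤ M * 1 := by apply mul_le_mul_of_nonneg_left _ hM'.le; linarith
      _ = M := mul_one _
  have g2 : |(M : ℝ) * (if 0 % M = r then wt k 0 else 0)| ≤ M := by
    rw [abs_mul, abs_of_pos hM', abs_of_nonneg h5]
    calc _ ≤ (M : ℝ) * 1 := mul_le_mul_of_nonneg_left h6 hM'.le
      _ = M := mul_one _
  calc _ ≤ |(M : ℝ) * (A - 1 / M * T) - M * (if 0 % M = r then wt k 0 else 0)| +
        |T - ∑ j ∈ range (n + 1), W k j| := abs_add_le _ _
    _ ≤ (|(M : ℝ) * (A - 1 / M * T)| + |(M : ℝ) * (if 0 % M = r then wt k 0 else 0)|) + k :=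
        add_le_add (abs_sub _ _) h3
    _ ≤ _ := by linarith

lemma exp_tendsto (k M r : ℕ) (hM : 0 < M) (hr : r < M) :
    Tendsto (fun n => expCount qs k n M r) atTop atTop := by
  have hM' : (0 : ℝ) < M := by exact_mod_cast hM
  have h1 : Tendsto (fun n => (S k n - (2 * M + k)) / M) atTop atTop :=
    (tendsto_atTop_add_const_right _ _ (S_tendsto k)).atTop_div_const hM'
  apply tendsto_atTop_mono _ h1
  intro n
  have := (abs_le.1 (exp_est k M r hM hr n)).1
  rw [div_le_iff₀ hM']
  linarith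

lemma lim_of_close {a Sn Err : ℕ → ℝ} (hS : ∀ n, 0 < Sn n)
    (hE : Tendsto (fun n => Err n / Sn n) atTop (𝓝 0)) (h : ∀ n, |a n - Sn n| ≤ Err n) :
    Tendsto (fun n => a n / Sn n) atTop (𝓝 1) := by
  have h1 : Tendsto (fun n => (a n - Sn n) / Sn n) atTop (𝓝 0) := by
    apply squeeze_zero_norm _ hE
    intro n
    rw [Real.norm_eq_abs, abs_div, abs_of_pos (hS n)]
    exact div_le_div_of_nonneg_right (h n) (hS n).le
  have h2 := h1.add_const 1
  rw [zero_add] at h2
  refine h2.congr (fun n => ?_)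
  have := (hS n).ne'
  field_simp
  ring

lemma exp_ratio (k M r : ℕ) (hM : 0 < M) (hr : r < M) :
    Tendsto (fun n => expCount qs k n M r / S k n) atTop (𝓝 (1 / M)) := by
  have hM' : (0 : ℝ) < M := by exact_mod_cast hM
  have h1 := lim_of_close (S_pos k) (Err := fun _ => 2 * (M : ℝ) + k)
    (Tendsto.div_atTop tendsto_const_nhds (S_tendsto k)) (exp_est k M r hM hr)
  have h2 := h1.const_mul (1 / (M : ℝ))
  rw [mul_one] at h2
  refine h2.congr (fun n => ?_)
  have := (S_pos k n).ne'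
  field_simp

lemma normal {k : ℕ} (hk : 1 ≤ k) (B : Fin k → ℕ) :
    Tendsto (fun n => (occCount Es B n 1 0 : ℝ) / expCount qs k n 1 0) atTop (𝓝 1) := by
  obtain ⟨Err, h0, h1⟩ := main_est hk B
  have h2 := lim_of_close (S_pos k) h0 (fun n => (h1 n).2)
  have h3 := exp_ratio k 1 0 one_pos one_pos
  have h4 := h2.div h3 (by norm_num)
  simp only [Nat.cast_one, div_one] at h4
  refine h4.congr (fun n => ?_)
  exact div_div_div_cancel_right₀ (S_pos k n).ne' _ _

lemma not_normal_zero {k : ℕ} (hk : 2 ≤ k) (B : Fin k → ℕ) :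
    Tendsto (fun n => (occCount Es B n k 0 : ℝ) / expCount qs k n k 0) atTop (𝓝 k) := by
  obtain ⟨Err, h0, h1⟩ := main_est (by omega) B
  have h2 := lim_of_close (S_pos k) h0 (fun n => (h1 n).1)
  have h3 := exp_ratio k k 0 (by omega) (by omega)
  have hk' : (0 : ℝ) < k := by exact_mod_cast (by omega : 0 < k)
  have h4 := h2.div h3 (by positivity)
  simp only [one_div_one_div] at h4
  refine h4.congr (fun n => ?_)
  exact div_div_div_cancel_right₀ (S_pos k n).ne' _ _

lemma not_normal_pos {k r : ℕ} (hk : 2 ≤ k) (hr : r < k) (hr0 : r ≠ 0) (B : Fin k → ℕ) :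
    Tendsto (fun n => (occCount Es B n k r : ℝ) / expCount qs k n k r) atTop (𝓝 0) := by
  obtain ⟨Err, h0, h1⟩ := main_est (by omega) B
  have hk' : (0 : ℝ) < k := by exact_mod_cast (by omega : 0 < k)
  have hsum : ∀ n, (occCount Es B n k r : ℝ) ≤ 2 * Err n := by
    intro n
    have h2 : occCount Es B n k r + occCount Es B n k 0 ≤ occCount Es B n 1 0 := by
      classical
      unfold occCount
      rw [← card_union_of_disjoint]
      · apply card_le_card
        intro i hi
        rw [mem_union, mem_filter, mem_filter] at hi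
        rw [mem_filter]
        rcases hi with hi | hi
        · exact ⟨hi.1, Nat.mod_one i, hi.2.2⟩
        · exact ⟨hi.1, Nat.mod_one i, hi.2.2⟩
      · rw [disjoint_left]
        intro i hi hi'
        rw [mem_filter] at hi hi'
        exact hr0 (hi.2.1.symm.trans hi'.2.1)
    have h2' : (occCount Es B n k r : ℝ) + occCount Es B n k 0 ≤ occCount Es B n 1 0 := by
      exact_mod_cast h2
    have h3 := abs_le.1 (h1 n).1
    have h4 := abs_le.1 (h1 n).2
    linarith
  have h5 : Tendsto (fun n => (occCount Es B n k r : ℝ) / S k n) atTop (𝓝 0) := by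
    have h6 := h0.const_mul 2
    rw [mul_zero] at h6
    refine squeeze_zero (fun n => div_nonneg (by positivity) (S_pos k n).le) (fun n => ?_) h6
    rw [← mul_div_assoc]
    exact div_le_div_of_nonneg_right (hsum n) (S_pos k n).le
  have h3 := exp_ratio k k r (by omega) hr
  have h4 := h5.div h3 (by positivity)
  rw [zero_div] at h4
  refine h4.congr (fun n => ?_)
  exact div_div_div_cancel_right₀ (S_pos k n).ne' _ _

/-! ### Expansions -/

noncomputable def ps (q E : ℕ → ℕ) (N : ℕ) : ℝ :=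
  ∑ n ∈ Icc 1 N, (E n : ℝ) / ∏ i ∈ Icc 1 n, (q i : ℝ)

noncomputable def PP (q : ℕ → ℕ) (N : ℕ) : ℝ := ∏ i ∈ Icc 1 N, (q i : ℝ)

def num (q E : ℕ → ℕ) : ℕ → ℕ
  | 0 => 0
  | n + 1 => q (n + 1) * num q E n + E (n + 1)

lemma PP_succ (q : ℕ → ℕ) (N : ℕ) : PP q (N + 1) = PP q N * q (N + 1) := by
  unfold PP
  rw [prod_Icc_succ_top (by omega)]

lemma PP_pos {q : ℕ → ℕ} (hq : ∀ n, 2 ≤ q n) (N : ℕ) : 0 < PP q N := by
  unfold PP
  exact prod_pos fun i _ => by exact_mod_cast (by have := hq i; omega : 0 < q i)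

lemma ps_succ (q E : ℕ → ℕ) (N : ℕ) : ps q E (N + 1) = ps q E N + E (N + 1) / PP q (N + 1) := by
  unfold ps PP
  rw [sum_Icc_succ_top (by omega)]

lemma ps_num {q E : ℕ → ℕ} (hq : ∀ n, 2 ≤ q n) (N : ℕ) : ps q E N * PP q N = num q E N := by
  induction N with
  | zero => simp [ps, num]
  | succ N ih =>
    have h1 := PP_pos hq (N + 1)
    rw [ps_succ, add_mul, div_mul_cancel₀ _ h1.ne', PP_succ, ← mul_assoc, ih, num]
    push_cast
    ring

lemma ps_mono {q E : ℕ → ℕ} (hq : ∀ n, 2 ≤ q n) : Monotone (ps q E) := by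
  apply monotone_nat_of_le_succ
  intro N
  rw [ps_succ]
  have := PP_pos hq (N + 1)
  have : 0 ≤ (E (N + 1) : ℝ) / PP q (N + 1) := by positivity
  linarith

lemma up_step {q E : ℕ → ℕ} (hq : ∀ n, 2 ≤ q n) (N : ℕ) :
    ps q E (N + 1) + 1 / PP q (N + 1) =
      ps q E N + 1 / PP q N - ((q (N + 1) : ℝ) - 1 - E (N + 1)) / PP q (N + 1) := by
  rw [ps_succ, PP_succ]
  have h1 := PP_pos hq N
  have h2 : (0 : ℝ) < q (N + 1) := by exact_mod_cast (by have := hq (N + 1); omega : 0 < q (N + 1))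
  field_simp
  ring

lemma up_anti {q E : ℕ → ℕ} (hq : ∀ n, 2 ≤ q n) (hE : ∀ n, 1 ≤ n → E n < q n) :
    Antitone (fun N => ps q E N + 1 / PP q N) := by
  apply antitone_nat_of_succ_le
  intro N
  rw [up_step hq]
  have h1 := PP_pos hq (N + 1)
  have h2 : (E (N + 1) : ℝ) + 1 ≤ q (N + 1) := by exact_mod_cast hE (N + 1) (by omega)
  have : 0 ≤ ((q (N + 1) : ℝ) - 1 - E (N + 1)) / PP q (N + 1) :=
    div_nonneg (by linarith) h1.le
  linarith

lemma lim_lt {q E : ℕ → ℕ} (hq : ∀ n, 2 ≤ q n) (hE : ∀ n, 1 ≤ n → E n < q n)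
    (hinf : {n : ℕ | 1 ≤ n ∧ E n ≠ q n - 1}.Infinite) {y : ℝ}
    (hy : Tendsto (ps q E) atTop (𝓝 y)) (N : ℕ) :
    ps q E N ≤ y ∧ y < ps q E N + 1 / PP q N := by
  refine ⟨(ps_mono hq).ge_of_tendsto hy N, ?_⟩
  have hle : ∀ M, y ≤ ps q E M + 1 / PP q M := by
    intro M
    apply le_of_tendsto hy
    filter_upwards [eventually_ge_atTop M] with j hj
    have h1 := up_anti hq hE hj
    simp only at h1
    have h2 := PP_pos hq j
    have : 0 < 1 / PP q j := by positivity
    linarith
  obtain ⟨M, hM, hMN⟩ := hinf.exists_gt N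
  obtain ⟨M', rfl⟩ : ∃ M', M = M' + 1 := ⟨M - 1, by omega⟩
  refine (hle (M' + 1)).trans_lt ?_
  rw [up_step hq]
  have h1 := up_anti hq hE (show N ≤ M' by omega)
  simp only at h1
  have h2 := PP_pos hq (M' + 1)
  have h3 : (E (M' + 1) : ℝ) + 1 < q (M' + 1) := by
    have a1 := hE (M' + 1) (by omega)
    have a2 := hM.2
    exact_mod_cast (by omega : E (M' + 1) + 1 < q (M' + 1))
  have : 0 < ((q (M' + 1) : ℝ) - 1 - E (M' + 1)) / PP q (M' + 1) :=
    div_pos (by linarith) h2
  linarith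

lemma num_eq {q E : ℕ → ℕ} (hq : ∀ n, 2 ≤ q n) {x : ℝ} (h : IsCantorExpansion q E x) (N : ℕ) :
    num q E N = ⌊(x - ⌊x⌋) * PP q N⌋₊ := by
  obtain ⟨h1, h2, h3⟩ := h
  obtain ⟨h4, h5⟩ := lim_lt hq h1 h2 h3 N
  have hP := PP_pos hq N
  have e := ps_num (E := E) hq N
  symm
  have hnn : 0 ≤ x - ⌊x⌋ := sub_nonneg.2 (Int.floor_le x)
  rw [Nat.floor_eq_iff (mul_nonneg hnn hP.le), ← e]
  constructor
  · exact mul_le_mul_of_nonneg_right h4 hP.le
  · calc (x - ⌊x⌋) * PP q N < (ps q E N + 1 / PP q N) * PP q N := mul_lt_mul_of_pos_right h5 hP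
      _ = _ := by field_simp

/-- uniqueness of the expansion -/
lemma expansion_unique {q E E' : ℕ → ℕ} (hq : ∀ n, 2 ≤ q n) {x : ℝ}
    (h : IsCantorExpansion q E x) (h' : IsCantorExpansion q E' x) (n : ℕ) (hn : 1 ≤ n) :
    E n = E' n := by
  obtain ⟨m, rfl⟩ : ∃ m, n = m + 1 := ⟨n - 1, by omega⟩
  have h1 : num q E m = num q E' m := by rw [num_eq hq h, num_eq hq h']
  have h2 : num q E (m + 1) = num q E' (m + 1) := by rw [num_eq hq h, num_eq hq h']
  rw [num, num, h1] at h2
  omega

lemma exists_x : ∃ x : ℝ, IsCantorExpansion qs Es x := by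
  have hq : ∀ n, 2 ≤ qs n := fun n => by have := qs_ge n; omega
  have hE2 : ∀ n, Es n + 1 < qs n := fun n => by
    have h1 := pat_le (mu n) n
    have h2 := qs_ge n
    unfold qs Es at *
    omega
  have hE : ∀ n, 1 ≤ n → Es n < qs n := fun n _ => by have := hE2 n; omega
  have hinf : {n : ℕ | 1 ≤ n ∧ Es n ≠ qs n - 1}.Infinite := by
    apply (Set.Ici_infinite 1).mono
    intro n hn
    have := hE2 n
    exact ⟨hn, by omega⟩
  have hbdd : BddAbove (Set.range (ps qs Es)) := by
    refine ⟨1, ?_⟩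
    rintro _ ⟨N, rfl⟩
    have h1 := up_anti hq hE (Nat.zero_le N)
    simp only [ps, PP] at h1
    simp at h1
    have h2 := PP_pos hq N
    have h3 : 0 < (PP qs N)⁻¹ := by positivity
    unfold PP at h3
    unfold ps
    linarith
  have hlim := tendsto_atTop_ciSup (ps_mono (E := Es) hq) hbdd
  set x := ⨆ i, ps qs Es i
  obtain ⟨h1, h2⟩ := lim_lt hq hE hinf hlim 0
  have e0 : ps qs Es 0 = 0 := by simp [ps]
  have e1 : PP qs 0 = 1 := by simp [PP]
  rw [e0] at h1
  rw [e0, e1] at h2
  have hfl : ⌊x⌋ = 0 := by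
    rw [Int.floor_eq_iff]
    constructor
    · simpa using h1
    · simpa using h2
  refine ⟨x, hE, hinf, ?_⟩
  rw [hfl, Int.cast_zero, sub_zero]
  exact hlim

lemma occCount_congr {k : ℕ} {E E' : ℕ → ℕ} (h : ∀ n, 1 ≤ n → E n = E' n) (B : Fin k → ℕ)
    (n m r : ℕ) : occCount E B n m r = occCount E' B n m r := by
  unfold occCount
  congr 1
  ext i
  simp only [mem_filter, mem_Icc]
  refine and_congr_right fun hi => and_congr_right fun _ => ?_
  unfold Occurs
  refine forall_congr' fun j => ?_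
  rw [h (i + j) (by omega)]

/-- **Main theorem** (affirmative answer to Q1). There are a basic sequence `q` with
`q n → ∞`, fully divergent of type I, and a real number `x` that is `q`-normal of every order
`k ≥ 1` but lies in no `N^{AP}_k(q; k, r)` with `k ≥ 2` and `0 ≤ r < k`. -/
theorem result : ∃ q : ℕ → ℕ, (∀ n, 2 ≤ q n) ∧ Tendsto q atTop atTop ∧
    (∀ k m r : ℕ, 1 ≤ k → 1 ≤ m → r < m → Tendsto (fun n => expCount q k n m r) atTop atTop) ∧
    ∃ x : ℝ, (∀ k, 1 ≤ k → x ∈ apNormal q k 1 0) ∧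
      ∀ k, 2 ≤ k → ∀ r, r < k → x ∉ apNormal q k k r := by
  have hq : ∀ n, 2 ≤ qs n := fun n => by have := qs_ge n; omega
  refine ⟨qs, hq, qs_tendsto, fun k m r _ hm hr => exp_tendsto k m r hm hr, ?_⟩
  obtain ⟨x, hx⟩ := exists_x
  refine ⟨x, fun k hk => ⟨Es, hx, normal hk⟩, ?_⟩
  rintro k hk r hr ⟨E, hE, hlim⟩
  have hEq := expansion_unique hq hE hx
  have h1 := hlim (fun _ => 0)
  simp only [occCount_congr hEq] at h1
  rcases eq_or_ne r 0 with rfl | hr0
  · have h2 := tendsto_nhds_unique h1 (not_normal_zero hk (fun _ => 0))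
    have : k = 1 := by exact_mod_cast h2.symm
    omega
  · have h2 := tendsto_nhds_unique h1 (not_normal_pos hk hr hr0 (fun _ => 0))
    norm_num at h2

end Pool.Agent.Results.MP_8144ad_nt.APFailure
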